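import Pool.Agent.Helper31.MHS.Goals
import Pool.Agent.Helper11.MH.MCM
import Pool.Agent.Helper56.MH.OKM
import Pool.Agent.Helper96.MH.TRU

/-!
# Packet MHS-RUN: the part of a computation of a machine with several heads
-/

namespace Pool.Agent.Helper22.MHS

open Pool.Agent.Helper65.LinSpace Pool.Agent.Helper78.Mpc Pool.Agent.Helper28.Ram Finset
open Pool.Agent.Helper20.MH
open Pool.Agent.Helper31.MHS (WP WOK_stmt STP_stmt RepW GW)
open Pool.Agent.Helper31.MHS.WP

variable {D K : ℕ} {P : WP}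

theorem pow_dvd_sg (P : WP) : 2 ^ (P.m.S + 1) ∣ 2 ^ P.sg :=
  pow_dvd_pow 2 (by unfold WP.sg; omega)

theorem wq_mod (P : WP) (u : ℕ) : P.m.wq (u % 2 ^ P.sg) = P.m.wq u :=
  Nat.mod_mod_of_dvd u (pow_dvd_sg P)

theorem wq_mod' (P : WP) (u : ℕ) : P.m.wq (u % 2 ^ (P.sg + P.cb)) = P.m.wq u :=
  Nat.mod_mod_of_dvd u ((pow_dvd_sg P).trans (pow_dvd_pow 2 (Nat.le_add_right _ _)))

theorem wq_add (P : WP) (a b : ℕ) : P.m.wq (a + 2 ^ P.sg * b) = P.m.wq a := by
  rw [← wq_mod, Nat.add_mul_mod_self_left, wq_mod]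

theorem cs_lt (hκ : 0 < P.m.κ) (c : ℕ) : P.cs c < 2 ^ P.sg := by
  unfold WP.cs ifz
  split_ifs
  · exact Nat.mod_lt _ (by positivity)
  · exact Pool.Agent.Helper56.MH.mk_lt P.m (capN_lt _ _) fun _ _ =>
      Nat.pow_lt_pow_right (by norm_num) (by omega)

theorem comb_lt {a b s c : ℕ} (ha : a < 2 ^ s) (hb : b < 2 ^ c) : a + 2 ^ s * b < 2 ^ (s + c) := by
  rw [pow_add]
  calc a + 2 ^ s * b < 2 ^ s + 2 ^ s * b := by omega
    _ = 2 ^ s * (b + 1) := by ring
    _ ≤ _ := Nat.mul_le_mul_left _ hb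

theorem mod_comb {a b s : ℕ} (ha : a < 2 ^ s) : (a + 2 ^ s * b) % 2 ^ s = a := by
  rw [Nat.add_mul_mod_self_left, Nat.mod_eq_of_lt ha]

theorem div_comb {a b s : ℕ} (ha : a < 2 ^ s) : (a + 2 ^ s * b) / 2 ^ s = b := by
  rw [Nat.add_mul_div_left _ _ (by positivity), Nat.div_eq_of_lt ha, zero_add]

theorem sconf_succ (P : WP) (c τ t : ℕ) : (P.sys c τ).conf (t + 1) =
    (P.wN c ((P.sys c τ).conf t).1 ((P.sys c τ).rd ((P.sys c τ).conf t).2 ((P.sys c τ).conf t).1),
      fun z => (P.sys c τ).wr ((P.sys c τ).conf t).1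
        ((P.sys c τ).rd ((P.sys c τ).conf t).2 ((P.sys c τ).conf t).1) z
        (((P.sys c τ).conf t).2 z)) := rfl

/-- A failing state remains a failing state. -/
theorem fail_wN {c u v : ℕ} (h0 : P.m.wq u = 0) : P.m.wq (P.wN c u v) = 0 := by
  unfold WP.wN
  rw [wq_mod']
  by_cases h : P.stp u = 0
  · rw [h, ifz_zero, wq_add]
    exact Pool.Agent.Helper11.MH.fail_step (by rw [wq_mod]; exact h0)
  · rw [ifz_ne h]
    exact h0

/-- The start. -/
theorem start_gw (A : MultiHead D K) {w y : List Bool} {c τ t₀ : ℕ} (hκ : 0 < P.m.κ)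
    (hR : RepW P c (A.conf w y t₀)) (hτ : τ < 2 ^ P.cb) :
    GW P c τ (A.conf w y t₀) ((P.sys c τ).conf 0).1 ((P.sys c τ).conf 0).2 := by
  have e1 : ((P.sys c τ).conf 0).1 = P.cs c + 2 ^ P.sg * (τ % 2 ^ P.cb) := rfl
  have e2 : ((P.sys c τ).conf 0).2 = fun _ => 0 := rfl
  constructor
  · rw [e1, div_comb (cs_lt hκ c), Nat.mod_eq_of_lt hτ]
  · rw [e1, e2, mod_comb (cs_lt hκ c)]
    exact hR.good

/-- No step. -/
theorem idle_step (hS : STP_stmt) {c τ t : ℕ} (hok : (P.sys c τ).Ok)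
    (hst : P.stp ((P.sys c τ).conf t).1 ≠ 0) :
    (P.sys c τ).conf (t + 1) = (P.sys c τ).conf t := by
  rw [sconf_succ]
  have h1 : ((P.sys c τ).conf t).1 < 2 ^ (P.sg + P.cb) :=
    Pool.Agent.Helper96.MH.conf_fst_lt hok t
  have h2 : ∀ z, ((P.sys c τ).conf t).2 z < 2 ^ (P.m.S + 2) :=
    Pool.Agent.Helper96.MH.conf_snd_lt hok t
  refine Prod.ext ?_ ?_
  · show P.wN c _ _ = _
    unfold WP.wN
    rw [ifz_ne hst, Nat.mod_eq_of_lt h1]
  · funext z
    exact hS.idle P c τ _ _ h2 hst z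

/-- A step. -/
theorem go_step (hS : STP_stmt) (hM : STM_stmt) (A : MultiHead D K) {eA eN eW c0 : ℕ}
    {w y : List Bool} (hP : ParM A eA eN eW c0 w y P.m) (hF : FnsM A P.m) {c τ t n : ℕ}
    (hok : (P.sys c τ).Ok) {C : Conf D K} (hn : n < 2 ^ P.cb)
    (hG : GW P c (n + 1) C ((P.sys c τ).conf t).1 ((P.sys c τ).conf t).2)
    (hC : C.q.head? ≠ some true) :
    (P.m.wq ((P.sys c τ).conf (t + 1)).1 = 0 ∨
      GW P c n (A.step w y C) ((P.sys c τ).conf (t + 1)).1 ((P.sys c τ).conf (t + 1)).2) ∧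
    ((A.addr C.q).length ≤ P.m.S → (∀ i, (A.rd C i).length ≤ P.m.S) →
      (A.step w y C).q.length ≤ P.m.S → (∀ i, InBox P.m.κ ((A.step w y C).h i)) →
      GW P c n (A.step w y C) ((P.sys c τ).conf (t + 1)).1 ((P.sys c τ).conf (t + 1)).2) := by
  rw [sconf_succ]
  have h2 : ∀ z, ((P.sys c τ).conf t).2 z < 2 ^ (P.m.S + 2) :=
    Pool.Agent.Helper96.MH.conf_snd_lt hok t
  generalize ((P.sys c τ).conf t).1 = u at *
  generalize ((P.sys c τ).conf t).2 = M at *
  have hst : P.stp u = 0 := by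
    unfold WP.stp
    rw [hG.cnt, hG.good.wq, Pool.Agent.Helper11.MH.accN_zero_of hC]
    have : eq01 (n + 1) 0 = 0 := by simp [eq01]
    rw [this]
  have hrd := hS.rd P c τ u M h2
  have hwr := hS.wr P c τ u M h2 hst
  have hstm := hM A eA eN eW c0 w y P.m hP hF C _ _ hG.good hC
  have hlt : P.m.fN (u % 2 ^ P.sg)
      (P.m.sys.rd (fun z => P.ef c z (M z)) (u % 2 ^ P.sg)) < 2 ^ P.sg :=
    Pool.Agent.Helper56.MH.fN_lt P.m (u % 2 ^ P.sg)
      (P.m.sys.rd (fun z => P.ef c z (M z)) (u % 2 ^ P.sg))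
  have hN : P.wN c u ((P.sys c τ).rd M u) = P.m.fN (u % 2 ^ P.sg)
      (P.m.sys.rd (fun z => P.ef c z (M z)) (u % 2 ^ P.sg)) + 2 ^ P.sg * n := by
    unfold WP.wN
    rw [hst, ifz_zero, hrd, hG.cnt, Nat.add_sub_cancel]
    exact Nat.mod_eq_of_lt (comb_lt hlt hn)
  have hmk : ∀ C' : Conf D K, GoodM P.m C' (P.m.fN (u % 2 ^ P.sg)
      (P.m.sys.rd (fun z => P.ef c z (M z)) (u % 2 ^ P.sg)))
      (fun z => P.m.sys.wr (u % 2 ^ P.sg)
        (P.m.sys.rd (fun z => P.ef c z (M z)) (u % 2 ^ P.sg)) z (P.ef c z (M z))) →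
      GW P c n C' (P.wN c u ((P.sys c τ).rd M u))
        (fun z => (P.sys c τ).wr u ((P.sys c τ).rd M u) z (M z)) := by
    intro C' hC'
    constructor
    · rw [hN]
      exact div_comb hlt
    · rw [hN, mod_comb hlt]
      simp only [hwr]
      exact hC'
  refine ⟨?_, fun f1 f2 f3 f4 => hmk _ (hstm.2 f1 f2 f3 f4)⟩
  rcases hstm.1 with h | h
  · left
    show P.m.wq (P.wN c u ((P.sys c τ).rd M u)) = 0
    rw [hN, wq_add]
    exact h
  · exact Or.inr (hmk _ h)

theorem run (hW : WOK_stmt) (hS : STP_stmt) (hM : STM_stmt) :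
    Pool.Agent.Helper31.MHS.RUN_stmt where
  snd := by
    intro D K A eA eN eW c0 w y P hP hF hc c τ t₀ hR hτ t
    have hok : (P.sys c τ).Ok := (hW P c τ hP.pos_κ hc).1
    induction t with
    | zero =>
      refine Or.inr ⟨0, Nat.zero_le _, le_rfl, ?_, Or.inl rfl⟩
      exact start_gw A hP.pos_κ hR hτ
    | succ t ih =>
      rcases ih with h | ⟨j, hjτ, hjt, hG, hj⟩
      · left
        rw [sconf_succ]
        exact fail_wN h
      · have hidle : P.stp ((P.sys c τ).conf t).1 ≠ 0 →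
            (j = τ ∨ A.AcceptsAt w y (t₀ + j)) → P.m.wq ((P.sys c τ).conf (t + 1)).1 = 0 ∨
            ∃ j ≤ τ, j ≤ t + 1 ∧ GW P c (τ - j) (A.conf w y (t₀ + j))
              ((P.sys c τ).conf (t + 1)).1 ((P.sys c τ).conf (t + 1)).2 ∧
              (j = t + 1 ∨ j = τ ∨ A.AcceptsAt w y (t₀ + j)) := by
          intro h1 h2
          rw [idle_step hS hok h1]
          exact Or.inr ⟨j, hjτ, hjt.trans (Nat.le_succ _), hG, Or.inr h2⟩
        by_cases h1 : j = τ
        · apply hidle _ (Or.inl h1)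
          unfold WP.stp
          rw [hG.cnt, h1, Nat.sub_self]
          have : eq01 0 0 = 1 := by simp [eq01]
          omega
        · by_cases h2 : A.AcceptsAt w y (t₀ + j)
          · apply hidle _ (Or.inr h2)
            unfold WP.stp
            rw [hG.good.wq, (accN_num _).2 h2]
            omega
          · have hjt' : j = t := by
              rcases hj with h | h | h
              · exact h
              · exact absurd h h1
              · exact absurd h h2
            have hn : τ - j = (τ - (j + 1)) + 1 := by omega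
            rw [hn] at hG
            have hgo := (go_step hS hM A hP hF hok (n := τ - (j + 1)) (by omega) hG h2).1
            rcases hgo with h | h
            · exact Or.inl h
            · refine Or.inr ⟨j + 1, by omega, by omega, ?_, Or.inl (by omega)⟩
              rw [← add_assoc]
              exact h
  cmp := by
    intro D K A eA eN eW c0 w y P hP hF hc c τ t₀ hR hτ hfit hbox hna t
    have hok : (P.sys c τ).Ok := (hW P c τ hP.pos_κ hc).1
    induction t with
    | zero =>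
      rw [Nat.zero_min]
      exact start_gw A hP.pos_κ hR hτ
    | succ t ih =>
      rcases Nat.lt_or_ge t τ with h | h
      · rw [min_eq_left h.le] at ih
        rw [min_eq_left (show t + 1 ≤ τ by omega)]
        have hn : τ - t = (τ - (t + 1)) + 1 := by omega
        rw [hn] at ih
        have h2 : ¬ A.AcceptsAt w y (t₀ + t) := hna _ (by omega) (by omega)
        obtain ⟨f1, f2, f3⟩ := hfit (t₀ + t) (by omega)
        obtain ⟨f4, -, -⟩ := hfit (t₀ + t + 1) (by omega)
        have hgo := (go_step hS hM A hP hF hok (n := τ - (t + 1)) (by omega) ih h2).2 f2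
          (fun i => f3 _ _) f4 (fun i => hbox (t₀ + t + 1) (by omega) i)
        rw [← add_assoc]
        exact hgo
      · rw [min_eq_right h] at ih
        rw [min_eq_right (h.trans (Nat.le_succ _))]
        rw [idle_step hS hok]
        · exact ih
        · unfold WP.stp
          rw [ih.cnt, Nat.sub_self]
          have : eq01 0 0 = 1 := by simp [eq01]
          omega

end Pool.Agent.Helper22.MHS
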